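import Pool.Agent.H68.Gq6

set_option autoImplicit false

namespace Pool.Agent.Results.MP_b67b84_gt.Four

open Pool.Agent.H68.Gn

/-- Planar geodesic nets with four fixed unbalanced vertices and arbitrarily many balanced
vertices. -/
theorem result :
    ∃ U : Finset ℂ, U.card = 4 ∧ ∀ N : ℕ, ∃ (V : Finset ℂ) (G : SimpleGraph ℂ),
        (∀ a b : ℂ, G.Adj a b → a ∈ V ∧ b ∈ V) ∧
        (∀ a ∈ V, ∀ b ∈ V, G.Reachable a b) ∧
        (∀ a b c d : ℂ, G.Adj a b → G.Adj c d → ¬ ((a = c ∧ b = d) ∨ (a = d ∧ b = c)) →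
          ∀ x ∈ segment ℝ a b ∩ segment ℝ c d, (x = a ∨ x = b) ∧ (x = c ∨ x = d)) ∧
        (∀ a b v : ℂ, G.Adj a b → v ∈ V → v ∈ segment ℝ a b → v = a ∨ v = b) ∧
        U ⊆ V ∧
        (∀ a ∈ U, ∀ b ∈ U, ¬ G.Adj a b) ∧
        (∀ v ∈ V, v ∉ U → 3 ≤ (G.neighborSet v).ncard ∧
          (∑ᶠ w ∈ G.neighborSet v, (w - v) / ((‖w - v‖ : ℝ) : ℂ)) = 0) ∧
        N ≤ Set.ncard {v : ℂ | v ∈ V ∧ v ∉ U} := by
  classical
  obtain ⟨τ, h⟩ := cfg
  have mU : ∀ v : ℂ, v ∈ ({(a0 : ℂ), -(a0 : ℂ), Bt τ, Dt τ} : Finset ℂ) ↔ IsA τ v := fun v => by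
    simp [IsA]
  have s2 : ∀ k, sg (2 * k + 2) = 1 := fun k => by
    rw [sg_succ, sg_succ, sg, pow_mul]; simp
  have a1 := ab.1
  have b1 := bb.1
  refine ⟨{(a0 : ℂ), -(a0 : ℂ), Bt τ, Dt τ}, ?_, fun N => ?_⟩
  · rw [Finset.card_insert_of_notMem, Finset.card_insert_of_notMem, Finset.card_pair]
    · intro e; have := congrArg Complex.im e; simp [Bt, Dt] at this; linarith
    · simp only [Finset.mem_insert, Finset.mem_singleton]
      rintro (e | e) <;> have := congrArg Complex.im e <;> simp [Bt, Dt] at this <;> linarith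
    · simp only [Finset.mem_insert, Finset.mem_singleton]
      rintro (e | e | e)
      · have := congrArg Complex.re e; simp at this; linarith
      all_goals (have := congrArg Complex.im e; simp [Bt, Dt] at this; linarith)
  obtain ⟨p, z1, z2, C⟩ := h (2 * N + 2) (by omega) (s2 N)
  obtain ⟨V, G, c1, c2, c3, c4, c5, c6, c7, c8⟩ := netQ C
  refine ⟨V, G, c1, c2, c3, c4, fun v hv => c5 v ((mU v).1 hv),
    fun a ha b hb => c6 a b ((mU a).1 ha) ((mU b).1 hb),
    fun v hv hU => c7 v hv fun e => hU ((mU v).2 e), ?_⟩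
  have hi : Set.InjOn (fun k => qq p (2 * k + 2)) (Finset.range N : Set ℕ) := by
    intro i hi j hj e
    simp only [Finset.coe_range, Set.mem_Iio] at hi hj
    by_contra hij
    have s := stq C (2 * i + 2) (2 * j + 2) (by omega) (by omega) (by omega) (by rw [s2, s2])
    have e' : (p (2 * i + 2)).im = (p (2 * j + 2)).im := by
      have := congrArg Complex.im e
      exact this
    rw [Complex.sub_im, e', sub_self, abs_zero, zero_div] at s
    exact absurd s (not_lt.2 (abs_nonneg _))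
  refine le_trans (b := ((fun k => qq p (2 * k + 2)) '' (Finset.range N : Set ℕ)).ncard)
    (by rw [hi.ncard_image, Set.ncard_coe_finset, Finset.card_range])
    (Set.ncard_le_ncard ?_ (V.finite_toSet.subset fun v hv => hv.1))
  rintro _ ⟨k, hk, rfl⟩
  simp only [Finset.coe_range, Set.mem_Iio] at hk
  exact ⟨c8 (2 * k + 1) (by omega), fun hU => notA τ _ (inn C _).1 ((mU _).1 hU)⟩

end Pool.Agent.Results.MP_b67b84_gt.Four
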